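import Pool.Agent.H176RD.Main

set_option autoImplicit false

/-! MP_d4ab52_co: if an abelian group `G` of order `p^(2b)`, `p` odd, contains a
`(p^b,p^b,p^b,1)` relative difference set and is not elementary abelian, then its exponent is
`p^e` with `e ≥ 2`, the subgroup `p^(e-1) G` has order at least `p^2`, and at least `p^3` if
`p ≥ 5`, and in the latter case `b ≥ 4`. In particular `G` is elementary abelian for `b ≤ 3` and
`p ≥ 5`. -/

namespace Pool.Agent.Results.MP_d4ab52_co.TopFactors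

theorem result : ∀ (p b : ℕ), p.Prime → Odd p → 1 ≤ b →
    ∀ (G : Type) [AddCommGroup G] [Fintype G] [DecidableEq G],
    Fintype.card G = p ^ (2 * b) →
    ∀ (N : AddSubgroup G), Nat.card N = p ^ b →
    ∀ (D : Finset G), D.card = p ^ b →
    (∀ g : G, g ∉ N → ((D ×ˢ D).filter (fun x => x.1 - x.2 = g)).card = 1) →
    (∀ g : G, g ∈ N → g ≠ 0 → ((D ×ˢ D).filter (fun x => x.1 - x.2 = g)).card = 0) →
    (∀ g : G, p • g = 0) ∨ ∃ e : ℕ, 2 ≤ e ∧ AddMonoid.exponent G = p ^ e ∧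
      p ^ 2 ≤ Nat.card (nsmulAddMonoidHom (p ^ (e - 1)) : G →+ G).range ∧
      (5 ≤ p → p ^ 3 ≤ Nat.card (nsmulAddMonoidHom (p ^ (e - 1)) : G →+ G).range ∧ 4 ≤ b) := by
  intro p b hp ho hb G _ _ _ hG N hN D hD h1 h0
  obtain ⟨hA, hB⟩ := Pool.Agent.H176RD.mT1 p b hp ho hb G hG N hN D hD h1 h0
  rcases hA with h | ⟨e, he, hex, h2, h3⟩
  · exact Or.inl h
  · by_cases h5 : 5 ≤ p
    · by_cases h4 : b ≤ 3
      · exact Or.inl (hB h5 h4)
      · exact Or.inr ⟨e, he, hex, h2, fun _ => ⟨h3 h5, by omega⟩⟩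
    · exact Or.inr ⟨e, he, hex, h2, fun h => absurd h h5⟩

end Pool.Agent.Results.MP_d4ab52_co.TopFactors
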